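import Pool.Agent.helper4.QX.SpecM

set_option autoImplicit false

open scoped MatrixGroups ContDiff Topology UpperHalfPlane
open UpperHalfPlane MeasureTheory ProbabilityTheory Filter Set Polynomial
open Pool.Agent.QU Pool.Agent.RP

namespace Pool.Agent.QX

/-- The constant of one entry. -/
noncomputable def LPN_B (c : ℝ) (a : MonoidAlgebra ℂ F2) : ℝ :=
  ∑ w ∈ a.coeff.support, ‖a.coeff w‖ * (2 * |c| * w.norm)

theorem LPN_B0 (c : ℝ) (a : MonoidAlgebra ℂ F2) : 0 ≤ LPN_B c a := by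
  unfold LPN_B
  positivity

theorem LPN_rep {N : ℕ} (hULP : ULP_stmt) (c : ℝ) (x y : GI N → ℝ) (a : MonoidAlgebra ℂ F2)
    (v : EuclideanSpace ℂ (Fin N)) (hN : 1 ≤ N) :
    ‖rep (UR c x) a v - rep (UR c y) a v‖ ≤
      LPN_B c a / Real.sqrt N * Real.sqrt (∑ i, (x i - y i) ^ 2) * ‖v‖ := by
  unfold rep LPN_B
  rw [sum_apply, sum_apply, ← Finset.sum_sub_distrib,
    Finset.sum_div, Finset.sum_mul, Finset.sum_mul]
  refine (norm_sum_le _ _).trans (Finset.sum_le_sum fun w _ => ?_)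
  have h1 : (a.coeff w • ((UR c x w).toLinearIsometry.toContinuousLinearMap :
        EuclideanSpace ℂ (Fin N) →L[ℂ] EuclideanSpace ℂ (Fin N))) v -
      (a.coeff w • ((UR c y w).toLinearIsometry.toContinuousLinearMap :
        EuclideanSpace ℂ (Fin N) →L[ℂ] EuclideanSpace ℂ (Fin N))) v =
      a.coeff w • (UR c x w v - UR c y w v) := by
    rw [smul_sub]
    rfl
  rw [h1, norm_smul]
  calc ‖a.coeff w‖ * ‖UR c x w v - UR c y w v‖
      ≤ ‖a.coeff w‖ * (2 * |c| * w.norm / Real.sqrt N * Real.sqrt (∑ i, (x i - y i) ^ 2) * ‖v‖) :=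
        mul_le_mul_of_nonneg_left (hULP N c x y w v hN) (norm_nonneg _)
    _ = _ := by ring

theorem LPN_one {D N : ℕ} (hMRB : MRB_stmt) (hULP : ULP_stmt) (P : Mat D F2) (c : ℝ)
    (x y : GI N → ℝ) (hN : 1 ≤ N) :
    opn c x P ≤ opn c y P + (∑ i, ∑ j, LPN_B c (P i j)) / Real.sqrt N *
      Real.sqrt (∑ i, (x i - y i) ^ 2) := by
  set S : ℝ := Real.sqrt (∑ i, (x i - y i) ^ 2) with hS
  have hS0 : 0 ≤ S := Real.sqrt_nonneg _
  set Δ : ℝ := (∑ i, ∑ j, LPN_B c (P i j)) / Real.sqrt N * S with hΔ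
  have hΔ0 : 0 ≤ Δ := by
    have h : 0 ≤ ∑ i, ∑ j, LPN_B c (P i j) :=
      Finset.sum_nonneg fun i _ => Finset.sum_nonneg fun j _ => LPN_B0 _ _
    positivity
  have ho : 0 ≤ opn c y P := norm_nonneg _
  refine ((hMRB D N c x P (opn c y P + Δ) (by positivity)).1).1 ?_
  have hy : RepB (UR c y) P (opn c y P) := ((hMRB D N c y P (opn c y P) ho).1).2 le_rfl
  intro v
  -- the norms in the Hilbert sum
  set X : PiLp 2 (fun _ : Fin D => EuclideanSpace ℂ (Fin N)) :=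
    WithLp.toLp 2 (fun i => ∑ j, rep (UR c x) (P i j) (v j)) with hX
  set Y : PiLp 2 (fun _ : Fin D => EuclideanSpace ℂ (Fin N)) :=
    WithLp.toLp 2 (fun i => ∑ j, rep (UR c y) (P i j) (v j)) with hY
  set V : PiLp 2 (fun _ : Fin D => EuclideanSpace ℂ (Fin N)) := WithLp.toLp 2 v with hV
  have nX : ‖X‖ ^ 2 = ∑ i, ‖∑ j, rep (UR c x) (P i j) (v j)‖ ^ 2 := by
    rw [PiLp.norm_sq_eq_of_L2]
  have nY : ‖Y‖ ^ 2 = ∑ i, ‖∑ j, rep (UR c y) (P i j) (v j)‖ ^ 2 := by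
    rw [PiLp.norm_sq_eq_of_L2]
  have nV : ‖V‖ ^ 2 = ∑ i, ‖v i‖ ^ 2 := by
    rw [PiLp.norm_sq_eq_of_L2]
  rw [← nX, ← nV]
  have hYV : ‖Y‖ ≤ opn c y P * ‖V‖ := by
    have h := hy v
    rw [← nY, ← nV, ← mul_pow] at h
    exact le_of_pow_le_pow_left₀ two_ne_zero (by positivity) h
  have hXY : ‖X - Y‖ ≤ Δ * ‖V‖ := by
    have h1 : ‖X - Y‖ ≤ ∑ i, ‖(X - Y) i‖ := by
      rw [PiLp.norm_eq_of_L2]
      refine Real.sqrt_le_iff.2 ⟨Finset.sum_nonneg fun i _ => norm_nonneg _, ?_⟩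
      exact Finset.sum_sq_le_sq_sum_of_nonneg (fun i _ => norm_nonneg _)
    refine h1.trans ?_
    have h2 : ∀ j, ‖v j‖ ≤ ‖V‖ := fun j => PiLp.norm_apply_le V j
    have h3 : ∀ i, ‖(X - Y) i‖ ≤ ∑ j, LPN_B c (P i j) / Real.sqrt N * S * ‖V‖ := by
      intro i
      have h4 : (X - Y) i = ∑ j, (rep (UR c x) (P i j) (v j) - rep (UR c y) (P i j) (v j)) := by
        rw [Finset.sum_sub_distrib]
        rfl
      rw [h4]
      refine (norm_sum_le _ _).trans (Finset.sum_le_sum fun j _ => ?_)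
      refine (LPN_rep hULP c x y (P i j) (v j) hN).trans ?_
      refine mul_le_mul_of_nonneg_left (h2 j) ?_
      have := LPN_B0 c (P i j)
      positivity
    refine (Finset.sum_le_sum fun i _ => h3 i).trans (le_of_eq ?_)
    rw [hΔ]
    simp only [Finset.sum_div, Finset.sum_mul]
  have hX2 : ‖X‖ ≤ (opn c y P + Δ) * ‖V‖ := by
    have h : X = Y + (X - Y) := by abel
    calc ‖X‖ = ‖Y + (X - Y)‖ := by rw [← h]
      _ ≤ ‖Y‖ + ‖X - Y‖ := norm_add_le _ _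
      _ ≤ opn c y P * ‖V‖ + Δ * ‖V‖ := add_le_add hYV hXY
      _ = _ := by ring
  rw [← mul_pow]
  exact pow_le_pow_left₀ (norm_nonneg _) hX2 2

theorem LPN (hMRB : MRB_stmt) (hULP : ULP_stmt) : LPN_stmt := by
  intro D P c
  have h0 : 0 ≤ ∑ i, ∑ j, LPN_B c (P i j) :=
    Finset.sum_nonneg fun i _ => Finset.sum_nonneg fun j _ => LPN_B0 _ _
  refine ⟨(∑ i, ∑ j, LPN_B c (P i j)) + 1, by positivity, fun N x y hN => ?_⟩
  have h1 := LPN_one hMRB hULP P c x y hN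
  have h2 := LPN_one hMRB hULP P c y x hN
  have h3 : ∑ i, (y i - x i) ^ 2 = ∑ i, (x i - y i) ^ 2 :=
    Finset.sum_congr rfl fun i _ => by ring
  rw [h3] at h2
  have h4 : (∑ i, ∑ j, LPN_B c (P i j)) / Real.sqrt N * Real.sqrt (∑ i, (x i - y i) ^ 2) ≤
      ((∑ i, ∑ j, LPN_B c (P i j)) + 1) / Real.sqrt N * Real.sqrt (∑ i, (x i - y i) ^ 2) := by
    refine mul_le_mul_of_nonneg_right ?_ (Real.sqrt_nonneg _)
    exact div_le_div_of_nonneg_right (by linarith) (Real.sqrt_nonneg _)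
  rw [abs_le]
  constructor <;> linarith

end Pool.Agent.QX
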