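import Pool.Agent.helper4.QX.SpecM

set_option autoImplicit false

open scoped MatrixGroups ContDiff Topology UpperHalfPlane
open UpperHalfPlane MeasureTheory ProbabilityTheory Filter Set Polynomial
open Pool.Agent.QU Pool.Agent.RP

namespace Pool.Agent.QX

instance SF1_prob (ι : Type) [Fintype ι] : IsProbabilityMeasure (gau ι) := by
  unfold gau
  infer_instance

theorem SF1_log : Tendsto (fun N : ℕ => Nat.log 4 N) atTop atTop := by
  rw [tendsto_atTop]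
  intro b
  filter_upwards [eventually_ge_atTop (4 ^ b)] with N hN
  exact Nat.le_log_of_pow_le (by norm_num) hN

theorem SF1_exp (C : ℝ) (m : ℕ) (y : ℝ) (hy : y = m) : Real.exp (C * y) ≤ 4 ^ (⌈C⌉₊ * m) := by
  subst hy
  have h1 : C * (m : ℝ) ≤ (⌈C⌉₊ : ℝ) * m :=
    mul_le_mul_of_nonneg_right (Nat.le_ceil C) (Nat.cast_nonneg m)
  have h2 : Real.exp ((⌈C⌉₊ : ℝ) * m) = Real.exp 1 ^ (⌈C⌉₊ * m) := by
    rw [← Real.exp_nat_mul, mul_one, Nat.cast_mul]
  refine (Real.exp_le_exp.2 h1).trans ?_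
  rw [h2]
  refine pow_le_pow_left₀ (Real.exp_pos 1).le ?_ _
  have := Real.exp_one_lt_d9
  linarith

theorem SF1_lim (D C₃ : ℝ) : Tendsto (fun s : ℕ => D * (4 * (1 / 16 : ℝ) ^ s +
    C₃ * ((s : ℝ) ^ 12 * (1 / 2 : ℝ) ^ s))) atTop (𝓝 0) := by
  have h1 : Tendsto (fun s : ℕ => (1 / 16 : ℝ) ^ s) atTop (𝓝 0) :=
    tendsto_pow_atTop_nhds_zero_of_lt_one (by norm_num) (by norm_num)
  have h2 : Tendsto (fun s : ℕ => (s : ℝ) ^ 12 * (1 / 2 : ℝ) ^ s) atTop (𝓝 0) :=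
    tendsto_pow_const_mul_const_pow_of_abs_lt_one 12 (by rw [abs_lt]; constructor <;> norm_num)
  have h3 := ((h1.const_mul 4).add (h2.const_mul C₃)).const_mul D
  simpa using h3

theorem SF1 (hTST : TST_stmt) (hREM : REM_stmt) (hEXH : EXH_stmt) (hTCH : TCH_stmt)
    (hNTP : NTP_stmt) (hMRB : MRB_stmt) : SF1_stmt := by
  intro c C hE D q P K r δ ε hD hK hr hδ hε hSA hUn hRe hSu
  obtain ⟨CR, hCR, hREM⟩ := hREM
  obtain ⟨-, -, -, hball⟩ := hTCH
  have hD0 : (0 : ℝ) < D := by exact_mod_cast hD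
  by_cases hKr : K ≤ r + δ
  · filter_upwards with N
    have h1 : {x : GI N → ℝ | r + δ < opn c x P} = ∅ := by
      ext x
      simp only [mem_ofPred_eq, mem_empty_iff_false, iff_false, not_lt]
      exact ((hMRB D N c x P K hK.le).2 hSA hUn).trans hKr
    rw [h1]
    simpa using hε.le
  push Not at hKr
  obtain ⟨D₀, hD₀, hT⟩ := hTST (r / K) ((r + δ) / K) 1 (by positivity)
    (div_lt_div_of_pos_right (by linarith) hK) ((div_le_one hK).2 hKr.le)
  set C₂ : ℕ := ⌈C⌉₊ + 1 with hC₂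
  set B : ℕ := q * D₀ + 1 with hB
  set C₃ : ℝ := CR * ((C₂ : ℝ) * (B : ℝ) ^ 2) ^ 6 with hC₃
  have key : ∀ N : ℕ, 4 ≤ N → (gau (GI N)).real {x | r + δ < opn c x P} ≤
      (D : ℝ) * (4 * (1 / 16 : ℝ) ^ (Nat.log 4 N) +
        C₃ * (((Nat.log 4 N : ℕ) : ℝ) ^ 12 * (1 / 2 : ℝ) ^ (Nat.log 4 N))) := by
    intro N hN
    set s : ℕ := Nat.log 4 N with hs
    have hs1 : 1 ≤ s := Nat.log_pos (by norm_num) hN
    have h4s : 4 ^ s ≤ N := Nat.pow_log_le_self 4 (by omega)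
    have hNs : N < 4 ^ (s + 1) := Nat.lt_pow_succ_log_self (by norm_num) N
    have hN1 : 1 ≤ N := by omega
    have hN0 : (0 : ℝ) < N := by exact_mod_cast hN1
    obtain ⟨h, hdeg, -, hb, hb1, hmaj⟩ := hT s hs1
    obtain ⟨φ, hφs, hφt, hφ0, hφi⟩ := hEXH c C hE D q (D₀ * s) P K r h hD hK hr hRe hSu hdeg
    have hnt : ∀ (N' : ℕ), 1 ≤ N' → ∀ x : GI N' → ℝ, 0 ≤ nt c K P h x ∧ nt c K P h x ≤ 2 ^ s := by
      intro N' hN' x
      exact (hNTP D N' c K x P hD hN' hK hSA hUn).1 h 0 (2 ^ s) hb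
    have hH : ∀ N' : ℕ, 1 ≤ N' → |∑' k, φ k / (N' : ℝ) ^ (2 * k)| ≤ 2 ^ s := by
      intro N' hN'
      rw [← (hφi N' hN').2]
      have h1 := norm_integral_le_of_norm_le_const (μ := gau (GI N')) (C := (2 : ℝ) ^ s)
        (f := fun x => nt c K P h x) (Eventually.of_forall fun x => by
          rw [Real.norm_eq_abs, abs_le]
          have := hnt N' hN' x
          have h2 : (0 : ℝ) ≤ 2 ^ s := by positivity
          constructor <;> linarith)
      simpa using h1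
    set L : ℕ := C₂ * (q * (D₀ * s) + 1) ^ 2 with hL
    have hL1 : 1 ≤ L := Nat.mul_pos (by omega) (by positivity)
    have hsum : ∑' k, |φ k| ≤ 4 ^ L * 2 ^ s := by
      have e1 : maj h (r / K) ≤ 1 := hmaj.trans (pow_le_one₀ (by norm_num) (by norm_num))
      have e2 : ((ball (q * (D₀ * s))).card : ℝ) ≤ 4 ^ (q * (D₀ * s) + 1) := by
        exact_mod_cast hball (q * (D₀ * s))
      have e3 : Real.exp (C * (((q * (D₀ * s) : ℕ) : ℝ) + 1) ^ 2) ≤
          4 ^ (⌈C⌉₊ * (q * (D₀ * s) + 1) ^ 2) := by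
        apply SF1_exp
        push_cast
        ring
      have e4 : (1 : ℝ) ≤ 2 ^ s := one_le_pow₀ (by norm_num)
      refine hφt.trans ?_
      calc maj h (r / K) * ((ball (q * (D₀ * s))).card : ℝ) *
            Real.exp (C * (((q * (D₀ * s) : ℕ) : ℝ) + 1) ^ 2)
          ≤ 1 * 4 ^ (q * (D₀ * s) + 1) * 4 ^ (⌈C⌉₊ * (q * (D₀ * s) + 1) ^ 2) := by
            refine mul_le_mul (mul_le_mul e1 e2 (by positivity) (by norm_num)) e3
              (Real.exp_pos _).le (by positivity)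
        _ = 4 ^ (q * (D₀ * s) + 1 + ⌈C⌉₊ * (q * (D₀ * s) + 1) ^ 2) := by
            rw [one_mul, ← pow_add]
        _ ≤ 4 ^ L := by
            refine pow_le_pow_right₀ (by norm_num) ?_
            rw [hL, hC₂]
            have : q * (D₀ * s) + 1 ≤ (q * (D₀ * s) + 1) ^ 2 := Nat.le_self_pow (by norm_num) _
            nlinarith
        _ ≤ 4 ^ L * 2 ^ s := le_mul_of_one_le_right (by positivity) e4
    have hR := (hREM φ (2 ^ s) L hL1 (by positivity) hφs hsum hH).2 1 le_rfl hL1 N hN1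
    rw [← (hφi N hN1).2, Finset.sum_range_one, pow_one] at hR
    have e5 : φ 0 / (N : ℝ) ^ (2 * 0) = φ 0 := by simp
    rw [e5] at hR
    have hI : ∫ x, nt c K P h x ∂(gau (GI N)) ≤
        (1 / 64 : ℝ) ^ s + CR * (L : ℝ) ^ 6 / (N : ℝ) ^ 2 * 2 ^ s := by
      have a1 := (abs_le.1 hR).2
      have a2 : φ 0 ≤ (1 / 64 : ℝ) ^ s := (le_abs_self _).trans (hφ0.trans hmaj)
      linarith
    have hMk := mul_meas_ge_le_integral_of_nonneg (μ := gau (GI N)) (f := fun x => nt c K P h x)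
      (Eventually.of_forall fun x => (hnt N hN1 x).1) (hφi N hN1).1 (1 / (D * N : ℝ))
    have hsub : (gau (GI N)).real {x | r + δ < opn c x P} ≤
        (gau (GI N)).real {x | 1 / (D * N : ℝ) ≤ nt c K P h x} := by
      refine measureReal_mono ?_
      intro x hx
      have hx' : r + δ < opn c x P := hx
      refine (hNTP D N c K x P hD hN1 hK hSA hUn).2.1 h ((r + δ) / K) (by positivity)
        (fun t ht => (hb t ht).1) (fun t h1 h2 => hb1 t h1 h2) ?_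
      rw [mul_div_cancel₀ _ hK.ne']
      exact hx'
    have hDN : (0 : ℝ) < D * N := by positivity
    have hbd : (gau (GI N)).real {x | 1 / (D * N : ℝ) ≤ nt c K P h x} ≤
        D * N * ((1 / 64 : ℝ) ^ s + CR * (L : ℝ) ^ 6 / (N : ℝ) ^ 2 * 2 ^ s) := by
      have a1 := hMk.trans hI
      rw [div_mul_eq_mul_div, one_mul, div_le_iff₀ hDN] at a1
      linarith
    refine (hsub.trans hbd).trans ?_
    have hNs' : (N : ℝ) ≤ 4 ^ (s + 1) := by exact_mod_cast hNs.le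
    have h4s' : (4 : ℝ) ^ s ≤ N := by exact_mod_cast h4s
    have f1 : (N : ℝ) * (1 / 64 : ℝ) ^ s ≤ 4 * (1 / 16 : ℝ) ^ s := by
      calc (N : ℝ) * (1 / 64 : ℝ) ^ s ≤ 4 ^ (s + 1) * (1 / 64 : ℝ) ^ s :=
            mul_le_mul_of_nonneg_right hNs' (by positivity)
        _ = 4 * ((4 : ℝ) ^ s * (1 / 64 : ℝ) ^ s) := by ring
        _ = 4 * (1 / 16 : ℝ) ^ s := by
            rw [← mul_pow]
            norm_num
    have hLe : (L : ℝ) ≤ (C₂ : ℝ) * (B : ℝ) ^ 2 * (s : ℝ) ^ 2 := by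
      have g1 : q * (D₀ * s) + 1 ≤ B * s := by
        rw [hB]
        nlinarith
      have g2 : L ≤ C₂ * (B * s) ^ 2 := by
        rw [hL]
        exact Nat.mul_le_mul_left _ (Nat.pow_le_pow_left g1 2)
      have g3 : (L : ℝ) ≤ ((C₂ * (B * s) ^ 2 : ℕ) : ℝ) := by exact_mod_cast g2
      refine g3.trans (le_of_eq ?_)
      push_cast
      ring
    have f2 : (N : ℝ) * (CR * (L : ℝ) ^ 6 / (N : ℝ) ^ 2 * 2 ^ s) ≤
        C₃ * ((s : ℝ) ^ 12 * (1 / 2 : ℝ) ^ s) := by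
      have g4 : (L : ℝ) ^ 6 ≤ ((C₂ : ℝ) * (B : ℝ) ^ 2) ^ 6 * (s : ℝ) ^ 12 := by
        refine (pow_le_pow_left₀ (Nat.cast_nonneg _) hLe 6).trans (le_of_eq ?_)
        ring
      have g5 : (2 : ℝ) ^ s / N ≤ (1 / 2 : ℝ) ^ s := by
        rw [div_le_iff₀ hN0]
        calc (2 : ℝ) ^ s = (1 / 2 : ℝ) ^ s * 4 ^ s := by
              rw [← mul_pow]
              norm_num
          _ ≤ (1 / 2 : ℝ) ^ s * N := mul_le_mul_of_nonneg_left h4s' (by positivity)
      calc (N : ℝ) * (CR * (L : ℝ) ^ 6 / (N : ℝ) ^ 2 * 2 ^ s) = CR * (L : ℝ) ^ 6 * (2 ^ s / N) := by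
            field_simp
        _ ≤ CR * (((C₂ : ℝ) * (B : ℝ) ^ 2) ^ 6 * (s : ℝ) ^ 12) * (1 / 2 : ℝ) ^ s := by
            refine mul_le_mul (mul_le_mul_of_nonneg_left g4 (by linarith)) g5 (by positivity) ?_
            have : (0 : ℝ) ≤ CR := by linarith
            positivity
        _ = _ := by
            rw [hC₃]
            ring
    calc (D : ℝ) * N * ((1 / 64 : ℝ) ^ s + CR * (L : ℝ) ^ 6 / (N : ℝ) ^ 2 * 2 ^ s)
        = D * (N * (1 / 64 : ℝ) ^ s + N * (CR * (L : ℝ) ^ 6 / (N : ℝ) ^ 2 * 2 ^ s)) := by ring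
      _ ≤ _ := mul_le_mul_of_nonneg_left (add_le_add f1 f2) hD0.le
  have hlim := (SF1_lim (D : ℝ) C₃).comp SF1_log
  have hev := hlim.eventually (ge_mem_nhds hε)
  filter_upwards [hev, eventually_ge_atTop 4] with N h1 h2
  exact (key N h2).trans h1

end Pool.Agent.QX
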