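import Pool.Agent.helper4.QX.SpecM

set_option autoImplicit false

open scoped MatrixGroups ContDiff Topology UpperHalfPlane
open UpperHalfPlane MeasureTheory ProbabilityTheory Filter Set Polynomial
open Pool.Agent.QU Pool.Agent.RP

namespace Pool.Agent.QX

instance SUP_prob (ι : Type) [Fintype ι] : IsProbabilityMeasure (gau ι) := by
  unfold gau
  infer_instance

theorem SUP_cont {N : ℕ} (F : (GI N → ℝ) → ℝ) (L : ℝ)
    (h : ∀ x y, |F x - F y| ≤ L * Real.sqrt (∑ i, (x i - y i) ^ 2)) : Continuous F := by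
  rw [continuous_iff_continuousAt]
  intro y
  unfold ContinuousAt
  rw [tendsto_iff_norm_sub_tendsto_zero]
  have h1 : Continuous (fun x : GI N → ℝ => L * Real.sqrt (∑ i, (x i - y i) ^ 2)) := by
    fun_prop
  have h2 : Tendsto (fun x : GI N → ℝ => L * Real.sqrt (∑ i, (x i - y i) ^ 2)) (𝓝 y) (𝓝 0) := by
    have h3 := h1.tendsto y
    simpa using h3
  refine squeeze_zero (fun x => norm_nonneg _) (fun x => ?_) h2
  rw [Real.norm_eq_abs]
  exact h x y

theorem SUP_num (a : ℝ) (ha : 0 < a) (k : ℕ) : ∃ A : ℝ, 0 ≤ A ∧ ∀ N : ℕ, 1 ≤ N →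
    2 * Real.exp (-(a * N)) ≤ A / (N : ℝ) ^ k := by
  refine ⟨2 * ((k.factorial : ℝ) / a ^ k), by positivity, fun N hN => ?_⟩
  have hN0 : (0 : ℝ) < N := by exact_mod_cast hN
  have h1 := Real.pow_div_factorial_le_exp (a * N) (by positivity) k
  rw [Real.exp_neg]
  have h2 : (Real.exp (a * N))⁻¹ ≤ ((a * N) ^ k / (k.factorial : ℝ))⁻¹ :=
    inv_anti₀ (by positivity) h1
  calc 2 * (Real.exp (a * N))⁻¹ ≤ 2 * ((a * N) ^ k / (k.factorial : ℝ))⁻¹ := by linarith
    _ = 2 * ((k.factorial : ℝ) / a ^ k) / (N : ℝ) ^ k := by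
        rw [mul_pow]
        field_simp

theorem SUP (hCON : CON_stmt) (hSF1 : SF1_stmt) (hLPN : LPN_stmt) : SUP_stmt := by
  intro c C hE D q P K r δ hD hK hr hδ hSA hUn hRe hSu k
  obtain ⟨L, hL, hLip⟩ := hLPN D P c
  have h1 := hSF1 c C hE D q P K r (δ / 2) (1 / 2) hD hK hr (by positivity) (by norm_num) hSA hUn hRe hSu
  obtain ⟨N₁, hN₁⟩ := eventually_atTop.1 h1
  set a : ℝ := δ ^ 2 / (20 * L ^ 2) with ha
  have ha0 : 0 < a := by positivity
  obtain ⟨A, hA0, hA⟩ := SUP_num a ha0 k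
  refine ⟨A + (N₁ : ℝ) ^ k, fun N hN => ?_⟩
  have hN0 : (0 : ℝ) < N := by exact_mod_cast hN
  have hNk : (0 : ℝ) < (N : ℝ) ^ k := by positivity
  rcases lt_or_ge N N₁ with hlt | hge
  · have h2 : (gau (GI N)).real {x | r + δ < opn c x P} ≤ 1 := measureReal_le_one
    refine h2.trans ?_
    rw [le_div_iff₀ hNk, one_mul]
    have h3 : (N : ℝ) ^ k ≤ (N₁ : ℝ) ^ k :=
      pow_le_pow_left₀ hN0.le (by exact_mod_cast hlt.le) k
    linarith
  · have hLN : 0 < L / Real.sqrt N := by positivity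
    have hLi : ∀ x y : GI N → ℝ, |opn c x P - opn c y P| ≤
        L / Real.sqrt N * Real.sqrt (∑ i, (x i - y i) ^ 2) := fun x y => hLip N x y hN
    have hcont : Continuous (fun x : GI N → ℝ => opn c x P) := SUP_cont _ _ hLi
    have h2 := hN₁ N hge
    have h3 : 1 / 2 ≤ (gau (GI N)).real {x | opn c x P ≤ r + δ / 2} := by
      have hm : MeasurableSet {x : GI N → ℝ | r + δ / 2 < opn c x P} :=
        measurableSet_lt measurable_const hcont.measurable
      have h4 : {x : GI N → ℝ | opn c x P ≤ r + δ / 2} = {x | r + δ / 2 < opn c x P}ᶜ := by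
        ext x
        simp
      rw [h4, probReal_compl_eq_one_sub hm]
      linarith
    have h5 := hCON (GI N) (fun x => opn c x P) (L / Real.sqrt N) (r + δ / 2) (δ / 2) hLN
      (by positivity) hLi h3
    have h6 : (gau (GI N)).real {x | r + δ < opn c x P} ≤
        (gau (GI N)).real {x | r + δ / 2 + δ / 2 ≤ opn c x P} := by
      refine measureReal_mono ?_
      intro x hx
      have hx' : r + δ < opn c x P := hx
      show r + δ / 2 + δ / 2 ≤ opn c x P
      linarith
    refine h6.trans (h5.trans ?_)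
    have h7 : (δ / 2) ^ 2 / (5 * (L / Real.sqrt N) ^ 2) = a * N := by
      rw [div_pow L, Real.sq_sqrt hN0.le, ha]
      field_simp
      ring
    rw [h7]
    refine (hA N hN).trans ?_
    refine div_le_div_of_nonneg_right ?_ hNk.le
    have : (0 : ℝ) ≤ (N₁ : ℝ) ^ k := by positivity
    linarith

end Pool.Agent.QX
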